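import Pool.Agent.Q57.FD.Irr
import Pool.Agent.Q57.MV.Cone
import Pool.Agent.TH152.AC.Farkas

/-!
Groups of integral matrices which preserve a rational polyhedral cone.
-/

set_option autoImplicit false
set_option linter.unusedSectionVars false

open Pool.Agent.Q57.GM Pool.Agent.Q57.MV Pool.Agent.TH152.AC

namespace Pool.Agent.Q57.FD

variable {p N0 : ℕ}

/-- the cone which is generated by integral vectors -/
def Cn (h : Fin N0 → Fin p → ℤ) (lam : Fin p → ℝ) : Prop :=
  ∃ t : Fin N0 → ℝ, (∀ b, 0 ≤ t b) ∧ ∀ i, lam i = ∑ b, t b * h b i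

theorem Cn.add {h : Fin N0 → Fin p → ℤ} {x y : Fin p → ℝ} (hx : Cn h x) (hy : Cn h y) :
    Cn h (x + y) := by
  obtain ⟨t, ht, h1⟩ := hx
  obtain ⟨t', ht', h2⟩ := hy
  refine ⟨t + t', fun b => add_nonneg (ht b) (ht' b), fun i => ?_⟩
  rw [Pi.add_apply, h1, h2, ← Finset.sum_add_distrib]
  exact Finset.sum_congr rfl fun b _ => by rw [Pi.add_apply]; ring

theorem Cn.smul {h : Fin N0 → Fin p → ℤ} {x : Fin p → ℝ} (hx : Cn h x) {a : ℝ} (ha : 0 ≤ a) :
    Cn h (a • x) := by
  obtain ⟨t, ht, h1⟩ := hx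
  refine ⟨a • t, fun b => mul_nonneg ha (ht b), fun i => ?_⟩
  rw [Pi.smul_apply, h1, smul_eq_mul, Finset.mul_sum]
  exact Finset.sum_congr rfl fun b _ => by rw [Pi.smul_apply, smul_eq_mul]; ring

/-- the integral points of the cone are given by inequalities -/
theorem exists_dual (h : Fin N0 → Fin p → ℤ) : ∃ (s : ℕ) (l : Fin s → Fin p → ℤ),
    (∀ j (x : Fin p → ℝ), Cn h x → 0 ≤ ∑ i, (l j i : ℝ) * x i) ∧
    ∀ γ : Fin p → ℤ, (∀ j, 0 ≤ ∑ i, l j i * γ i) → Cn h fun i => (γ i : ℝ) := by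
  classical
  obtain ⟨s, l, h1, h2⟩ := real_cone_fin h
  refine ⟨s, l, fun j x hx => ?_, fun γ hγ => ?_⟩
  · obtain ⟨t, ht, h3⟩ := hx
    have h4 : ∑ i, (l j i : ℝ) * x i = ∑ b, t b * ((∑ i, h b i * l j i : ℤ) : ℝ) := by
      have h5 : ∀ i, (l j i : ℝ) * x i = ∑ b, t b * ((h b i : ℝ) * l j i) := by
        intro i
        rw [h3, Finset.mul_sum]
        exact Finset.sum_congr rfl fun b _ => by ring
      rw [Finset.sum_congr rfl fun i _ => h5 i, Finset.sum_comm]
      refine Finset.sum_congr rfl fun b _ => ?_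
      rw [← Finset.mul_sum]
      push_cast
      rfl
    rw [h4]
    exact Finset.sum_nonneg fun b _ => mul_nonneg (ht b) (by exact_mod_cast h1 j b)
  · let dl : (Fin p → ℚ) → ((Fin p → ℚ) →ₗ[ℚ] ℚ) := fun v => ∑ i, v i • LinearMap.proj i
    have hdl : ∀ v y, dl v y = ∑ i, v i * y i := by
      intro v y
      simp only [dl, LinearMap.sum_apply, LinearMap.smul_apply, LinearMap.proj_apply, smul_eq_mul]
    obtain ⟨w, hw, hf⟩ := farkas_q N0 (fun b => - dl fun i => (h b i : ℚ))
      (- dl fun i => (γ i : ℚ)) fun y hy => by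
        have h3 : ∀ b, 0 ≤ ∑ i, (h b i : ℝ) * ((y i : ℚ) : ℝ) := by
          intro b
          have h4 := hy b
          rw [LinearMap.neg_apply, hdl] at h4
          have h5 : (0 : ℚ) ≤ ∑ i, (h b i : ℚ) * y i := by linarith
          exact_mod_cast h5
        obtain ⟨t, ht, h4⟩ := h2 (fun i => ((y i : ℚ) : ℝ)) h3
        have h5 : (0 : ℝ) ≤ ∑ i, (γ i : ℝ) * ((y i : ℚ) : ℝ) := by
          have h6 : ∑ i, (γ i : ℝ) * ((y i : ℚ) : ℝ) =
              ∑ b, t b * ((∑ i, l b i * γ i : ℤ) : ℝ) := by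
            have h7 : ∀ i, (γ i : ℝ) * ((y i : ℚ) : ℝ) = ∑ b, t b * ((l b i : ℝ) * γ i) := by
              intro i
              rw [h4, Finset.mul_sum]
              exact Finset.sum_congr rfl fun b _ => by ring
            rw [Finset.sum_congr rfl fun i _ => h7 i, Finset.sum_comm]
            refine Finset.sum_congr rfl fun b _ => ?_
            rw [← Finset.mul_sum]
            push_cast
            rfl
          rw [h6]
          exact Finset.sum_nonneg fun b _ => mul_nonneg (ht b) (by exact_mod_cast hγ b)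
        rw [LinearMap.neg_apply, hdl]
        have h6 : (0 : ℚ) ≤ ∑ i, (γ i : ℚ) * y i := by exact_mod_cast h5
        linarith
    refine ⟨fun b => (w b : ℝ), fun b => by beta_reduce; exact_mod_cast hw b, fun i => ?_⟩
    beta_reduce
    have h3 := hf (Pi.single i 1)
    simp only [LinearMap.neg_apply, hdl] at h3
    have h4 : ∀ v : Fin p → ℚ, ∑ j, v j * (Pi.single i 1 : Fin p → ℚ) j = v i := by
      intro v
      rw [Finset.sum_eq_single i]
      · rw [Pi.single_eq_same, mul_one]
      · intro b _ hb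
        rw [Pi.single_eq_of_ne hb, mul_zero]
      · intro h
        exact absurd (Finset.mem_univ _) h
    simp only [h4] at h3
    have h5 : (γ i : ℚ) = ∑ b, w b * (h b i : ℚ) := by
      have h6 : ∑ b, w b * -(h b i : ℚ) = - ∑ b, w b * (h b i : ℚ) := by
        rw [← Finset.sum_neg_distrib]
        exact Finset.sum_congr rfl fun b _ => by ring
      rw [h6] at h3
      linarith
    exact_mod_cast h5

/-- an integral vector in the interior of the cone -/
theorem exists_int {h : Fin N0 → Fin p → ℤ} (hint : (interior {x | Cn h x}).Nonempty) :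
    ∃ m0 : Fin p → ℤ, (Cn h fun i => (m0 i : ℝ)) ∧
      ∀ v : Fin p → ℤ, ∃ k : ℕ, Cn h fun i => ((k • m0 + v) i : ℝ) := by
  classical
  obtain ⟨x0, hx0⟩ := hint
  obtain ⟨ε, hε, hball⟩ := Metric.isOpen_iff.1 isOpen_interior x0 hx0
  obtain ⟨T, hT⟩ := exists_nat_gt (2 / ε)
  have hT0 : (0 : ℝ) < T := lt_trans (by positivity) hT
  have hTε : 2 < T * ε := by
    rw [div_lt_iff₀ hε] at hT
    exact hT
  -- the points near `T • x0`
  have hnear : ∀ y : Fin p → ℝ, (∀ i, |y i - T * x0 i| ≤ 2) → Cn h y := by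
    intro y hy
    have h1 : (fun i => y i / T) ∈ Metric.ball x0 ε := by
      rw [Metric.mem_ball, dist_pi_lt_iff hε]
      intro i
      rw [Real.dist_eq]
      have h2 : y i / T - x0 i = (y i - T * x0 i) / T := by
        field_simp
      rw [h2, abs_div, abs_of_pos hT0, div_lt_iff₀ hT0]
      have h3 := hy i
      linarith
    have h2 := interior_subset (hball h1)
    have h3 := (show Cn h (fun i => y i / T) from h2).smul hT0.le
    have h4 : ((T : ℝ) • fun i => y i / T) = y := by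
      funext i
      rw [Pi.smul_apply, smul_eq_mul]
      field_simp
    rwa [h4] at h3
  refine ⟨fun i => ⌊T * x0 i⌋, hnear _ fun i => ?_, fun v => ?_⟩
  · have h1 := Int.floor_le (T * x0 i)
    have h2 := Int.lt_floor_add_one (T * x0 i)
    rw [abs_le]
    constructor <;> linarith
  · obtain ⟨k, hk⟩ := exists_nat_gt (∑ i, |(v i : ℝ)|)
    have hk0 : (0 : ℝ) < k := lt_of_le_of_lt (Finset.sum_nonneg fun i _ => abs_nonneg _) hk
    refine ⟨k, ?_⟩
    have h1 : Cn h fun i => (⌊T * x0 i⌋ : ℝ) + v i / k := by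
      refine hnear _ fun i => ?_
      have h1 := Int.floor_le (T * x0 i)
      have h2 := Int.lt_floor_add_one (T * x0 i)
      have h3 : |(v i : ℝ) / k| ≤ 1 := by
        rw [abs_div, abs_of_pos hk0, div_le_one hk0]
        have h4 := Finset.single_le_sum (f := fun i => |(v i : ℝ)|) (fun i _ => abs_nonneg _)
          (Finset.mem_univ i)
        linarith
      rw [abs_le] at h3 ⊢
      constructor <;> linarith
    have h2 := h1.smul hk0.le
    have h3 : ((k : ℝ) • fun i => (⌊T * x0 i⌋ : ℝ) + v i / k) =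
        fun i => (((k • (fun i => ⌊T * x0 i⌋) + v : Fin p → ℤ) i : ℤ) : ℝ) := by
      funext i
      rw [Pi.smul_apply, smul_eq_mul, Pi.add_apply, Pi.smul_apply, nsmul_eq_mul]
      push_cast
      field_simp
    rwa [h3] at h2

/-- the action on real vectors -/
def act (g : Matrix (Fin p) (Fin p) ℤ) (lam : Fin p → ℝ) : Fin p → ℝ :=
  fun i => ∑ j, (g i j : ℝ) * lam j

theorem act_eq (g : Matrix (Fin p) (Fin p) ℤ) (lam : Fin p → ℝ) :
    act g lam = ((Int.castRingHom ℝ).mapMatrix g).mulVec lam := rfl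

theorem act_mul (g g' : Matrix (Fin p) (Fin p) ℤ) (lam : Fin p → ℝ) :
    act (g * g') lam = act g (act g' lam) := by
  rw [act_eq, act_eq, act_eq, map_mul, Matrix.mulVec_mulVec]

theorem act_one (lam : Fin p → ℝ) : act (1 : Matrix (Fin p) (Fin p) ℤ) lam = lam := by
  rw [act_eq, map_one, Matrix.one_mulVec]

theorem act_int (g : Matrix (Fin p) (Fin p) ℤ) (v : Fin p → ℤ) :
    act g (fun i => (v i : ℝ)) = fun i => ((g.mulVec v i : ℤ) : ℝ) := by
  funext i
  unfold act
  simp only [Matrix.mulVec, dotProduct]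
  push_cast
  rfl

/-- **The groups which preserve a rational polyhedral cone are finite.** -/
theorem finite_of {h : Fin N0 → Fin p → ℤ} (hpt : ∀ x, Cn h x → Cn h (-x) → x = 0)
    (hint : (interior {x | Cn h x}).Nonempty) (Γ : Subgroup (GL (Fin p) ℤ))
    (hΓ : ∀ g ∈ Γ, ∀ x, Cn h x → Cn h (act g.1 x)) : Finite Γ := by
  classical
  obtain ⟨s, l, hl1, hl2⟩ := exists_dual h
  let L : (Fin p → ℤ) →+ (Fin s → ℤ) := AddMonoidHom.mk' (fun γ j => ∑ i, l j i * γ i) (by
    intro x y
    funext j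
    simp only [Pi.add_apply, mul_add, Finset.sum_add_distrib])
  have hL : ∀ γ j, L γ j = ∑ i, l j i * γ i := fun _ _ => rfl
  have hM : ∀ γ : Fin p → ℤ, (∀ j, 0 ≤ L γ j) ↔ Cn h fun i => (γ i : ℝ) := by
    intro γ
    constructor
    · exact fun hγ => hl2 γ hγ
    · intro hγ j
      have h1 := hl1 j _ hγ
      rw [hL]
      exact_mod_cast h1
  have hinj : Function.Injective L := by
    rw [injective_iff_map_eq_zero]
    intro γ hγ
    have h1 : Cn h fun i => (γ i : ℝ) := (hM γ).1 fun j => by rw [hγ]; exact le_rfl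
    have h2 : Cn h fun i => ((-γ) i : ℝ) := (hM (-γ)).1 fun j => by
      rw [map_neg, hγ, neg_zero]
      exact le_rfl
    have h3 : (fun i => ((-γ) i : ℝ)) = - fun i => (γ i : ℝ) := by
      funext i
      simp
    rw [h3] at h2
    have h4 := hpt _ h1 h2
    funext i
    have h5 := congrFun h4 i
    simp only [Pi.zero_apply] at h5
    exact_mod_cast h5
  obtain ⟨m0, hm0, hspan⟩ := exists_int hint
  let ρ : Γ →* AddMonoid.End (Fin p → ℤ) :=
    { toFun := fun g => (Matrix.mulVecLin (g.1.1 : Matrix (Fin p) (Fin p) ℤ)).toAddMonoidHom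
      map_one' := by
        refine AddMonoidHom.ext fun v => ?_
        change (((1 : Γ).1.1 : Matrix (Fin p) (Fin p) ℤ)).mulVec v = v
        exact Matrix.one_mulVec v
      map_mul' := by
        intro g g'
        refine AddMonoidHom.ext fun v => ?_
        change (((g * g' : Γ).1.1 : Matrix (Fin p) (Fin p) ℤ)).mulVec v =
          (g.1.1 : Matrix (Fin p) (Fin p) ℤ).mulVec ((g'.1.1 : Matrix (Fin p) (Fin p) ℤ).mulVec v)
        rw [Matrix.mulVec_mulVec]
        rfl }
  have hρa : ∀ (g : Γ) v, ρ g v = (g.1.1 : Matrix (Fin p) (Fin p) ℤ).mulVec v := fun _ _ => rfl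
  refine finite_group hinj ρ (fun g g' hg => ?_) (fun g γ hγ => ?_) ((hM m0).2 hm0)
    fun v => ?_
  · apply Subtype.ext
    apply Units.ext
    refine Matrix.ext_of_mulVec_single fun i => ?_
    have h1 := congrArg (fun f : AddMonoid.End (Fin p → ℤ) => f (Pi.single i 1)) hg
    exact h1
  · rw [hM] at hγ ⊢
    have h1 := hΓ g.1 g.2 _ hγ
    rw [act_int] at h1
    exact h1
  · obtain ⟨k, hk⟩ := hspan v
    exact ⟨k, (hM _).2 hk⟩

end Pool.Agent.Q57.FD
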