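import Pool.Agent.Q57.FD.Cone

/-!
Rational polyhedral fundamental domains.
-/

set_option autoImplicit false
set_option linter.unusedSectionVars false

open Pool.Agent.Q57.GM Pool.Agent.Q57.MV Pool.Agent.TH152.AC

namespace Pool.Agent.Q57.FD

variable {p N0 : ℕ}

/-- an integral vector with trivial stabilizer -/
theorem exists_free (Γ : Subgroup (GL (Fin p) ℤ)) [Finite Γ] :
    ∃ w : Fin p → ℤ, ∀ g ∈ Γ, g ≠ 1 → (g.1 : Matrix (Fin p) (Fin p) ℤ).mulVec w ≠ w := by
  classical
  have := Fintype.ofFinite Γ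
  -- the fixed subspaces
  let f : Γ → ((Fin p → ℚ) →ₗ[ℚ] (Fin p → ℚ)) := fun g =>
    Matrix.mulVecLin ((Int.castRingHom ℚ).mapMatrix (g.1.1 : Matrix (Fin p) (Fin p) ℤ)) -
      LinearMap.id
  let W : Γ → Subspace ℚ (Fin p → ℚ) := fun g => LinearMap.ker (f g)
  have hint : ∀ (g : Γ) (v : Fin p → ℤ), f g (fun i => (v i : ℚ)) = 0 ↔
      (g.1.1 : Matrix (Fin p) (Fin p) ℤ).mulVec v = v := by
    intro g v
    have h1 : f g (fun i => (v i : ℚ)) = fun i =>
        (((g.1.1 : Matrix (Fin p) (Fin p) ℤ).mulVec v i : ℤ) : ℚ) - v i := by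
      funext i
      simp only [f, LinearMap.sub_apply, LinearMap.id_apply, Pi.sub_apply, Matrix.mulVecLin_apply,
        Matrix.mulVec, dotProduct]
      push_cast
      rfl
    rw [h1]
    constructor
    · intro h
      funext i
      have h2 := congrFun h i
      simp only [Pi.zero_apply] at h2
      have h3 : (((g.1.1 : Matrix (Fin p) (Fin p) ℤ).mulVec v i : ℤ) : ℚ) = v i := by linarith
      exact_mod_cast h3
    · intro h
      funext i
      rw [h]
      simp
  have hne : ∀ g : Γ, g ≠ 1 → W g ≠ ⊤ := by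
    intro g hg h
    apply hg
    apply Subtype.ext
    apply Units.ext
    refine Matrix.ext_of_mulVec_single fun i => ?_
    have h1 : (fun j => ((Pi.single i 1 : Fin p → ℤ) j : ℚ)) ∈ W g := by
      rw [h]
      exact Submodule.mem_top
    have h2 := (hint g (Pi.single i 1)).1 (LinearMap.mem_ker.1 h1)
    rw [h2]
    exact (Matrix.one_mulVec _).symm
  have hcov := Subspace.biUnion_ne_univ_of_top_notMem
    (s := (Finset.univ.filter fun g : Γ => g ≠ 1).image W) (by
      intro h
      obtain ⟨g, hg, hW⟩ := Finset.mem_image.1 h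
      exact hne g (Finset.mem_filter.1 hg).2 hW)
  obtain ⟨q, hq⟩ := (Set.ne_univ_iff_exists_notMem _).1 hcov
  obtain ⟨D, hD, hden⟩ := Pool.Agent.Y169.TH.exists_den q
  choose w hw using hden
  refine ⟨w, fun g hg hg1 h => hq ?_⟩
  have h1 : W ⟨g, hg⟩ ∈ (Finset.univ.filter fun g : Γ => g ≠ 1).image W :=
    Finset.mem_image_of_mem _ (Finset.mem_filter.2 ⟨Finset.mem_univ _, fun h0 => hg1
      (congrArg Subtype.val h0)⟩)
  refine Set.mem_biUnion h1 ?_
  have h2 := (hint ⟨g, hg⟩ w).2 h
  have h3 : (fun i => (w i : ℚ)) = (D : ℚ) • q := by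
    funext i
    rw [Pi.smul_apply, smul_eq_mul, hw]
  rw [h3, map_smul] at h2
  have hD0 : (D : ℚ) ≠ 0 := by exact_mod_cast hD.ne'
  exact (smul_eq_zero.1 h2).resolve_left hD0

/-- **Fundamental domains.** -/
theorem exists_dom {h : Fin N0 → Fin p → ℤ} (Γ : Subgroup (GL (Fin p) ℤ)) [Finite Γ]
    (hΓ : ∀ g ∈ Γ, ∀ x, Cn h x → Cn h (act g.1 x)) :
    ∃ (N1 : ℕ) (t : Fin N1 → Fin N0 → ℤ), (∀ c b, 0 ≤ t c b) ∧
      (∀ x, Cn h x ↔ ∃ g ∈ Γ, ∃ y, Cn (fun c i => ∑ b, t c b * h b i) y ∧ x = act g.1 y) ∧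
      ∀ g ∈ Γ, g ≠ 1 → Disjoint (interior {x | Cn (fun c i => ∑ b, t c b * h b i) x})
        (act g.1 '' {x | Cn (fun c i => ∑ b, t c b * h b i) x}) := by
  classical
  have := Fintype.ofFinite Γ
  obtain ⟨w, hw⟩ := exists_free Γ
  -- the invariant form
  let M : Γ → Matrix (Fin p) (Fin p) ℤ := fun g => g.1.1
  obtain ⟨B, hB⟩ : ∃ B : Matrix (Fin p) (Fin p) ℤ, B = ∑ g : Γ, (M g).transpose * M g :=
    ⟨_, rfl⟩
  have hBinv : ∀ g : Γ, (M g).transpose * B * M g = B := by
    intro g
    rw [hB, Finset.mul_sum, Finset.sum_mul]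
    refine (Finset.sum_congr rfl fun g' _ => ?_).trans (Equiv.sum_comp (Equiv.mulRight g)
      fun g' : Γ => (M g').transpose * M g')
    have h1 : M (g' * g) = M g' * M g := rfl
    rw [Equiv.coe_mulRight, h1, Matrix.transpose_mul, Matrix.mul_assoc, Matrix.mul_assoc,
      Matrix.mul_assoc]
  -- the functional of an integral vector
  let F : (Fin p → ℤ) → (Fin p → ℝ) → ℝ := fun v x => ∑ i, x i * ((B.mulVec v i : ℤ) : ℝ)
  have hFadd : ∀ v x y, F v (x + y) = F v x + F v y := by
    intro v x y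
    simp only [F, Pi.add_apply, add_mul, Finset.sum_add_distrib]
  have hFsmul : ∀ v (a : ℝ) x, F v (a • x) = a * F v x := by
    intro v a x
    simp only [F, Pi.smul_apply, smul_eq_mul, Finset.mul_sum, mul_assoc]
  have hFinv : ∀ (g : Γ) v x, F ((M g).mulVec v) (act (M g) x) = F v x := by
    intro g v x
    have h1 : F ((M g).mulVec v) (act (M g) x) =
        dotProduct (((Int.castRingHom ℝ).mapMatrix (M g)).mulVec x)
          (((Int.castRingHom ℝ).mapMatrix (B * M g)).mulVec fun i => (v i : ℝ)) := by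
      simp only [F, ← act_eq, dotProduct]
      refine Finset.sum_congr rfl fun i _ => ?_
      rw [act_int, Matrix.mulVec_mulVec]
    have h2 : F v x = dotProduct x
        (((Int.castRingHom ℝ).mapMatrix B).mulVec fun i => (v i : ℝ)) := by
      simp only [F, ← act_eq, dotProduct]
      refine Finset.sum_congr rfl fun i _ => ?_
      rw [act_int]
    rw [h1, h2, dotProduct_comm, Matrix.dotProduct_mulVec, dotProduct_comm,
      ← Matrix.mulVec_transpose, Matrix.mulVec_mulVec]
    congr 2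
    conv_rhs => rw [← hBinv g]
    rw [map_mul, map_mul, map_mul, Matrix.mul_assoc]
    rfl
  have hFpos : ∀ v : Fin p → ℤ, v ≠ 0 → 0 < F v fun i => (v i : ℝ) := by
    intro v hv
    have h1 : F v (fun i => (v i : ℝ)) = ((dotProduct v (B.mulVec v) : ℤ) : ℝ) := by
      simp only [F, dotProduct]
      push_cast
      rfl
    rw [h1]
    have h2 : dotProduct v (B.mulVec v) = ∑ g : Γ, dotProduct ((M g).mulVec v) ((M g).mulVec v) := by
      rw [hB, Matrix.sum_mulVec, dotProduct_sum]
      refine Finset.sum_congr rfl fun g _ => ?_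
      rw [← Matrix.mulVec_mulVec, Matrix.dotProduct_mulVec, Matrix.vecMul_transpose]
    have h3 : 0 < dotProduct v (B.mulVec v) := by
      rw [h2]
      have h4 : ∀ g : Γ, 0 ≤ dotProduct ((M g).mulVec v) ((M g).mulVec v) := fun g =>
        Finset.sum_nonneg fun i _ => mul_self_nonneg _
      have h5 : 0 < dotProduct ((M 1).mulVec v) ((M 1).mulVec v) := by
        have h6 : (M 1).mulVec v = v := Matrix.one_mulVec v
        rw [h6]
        obtain ⟨i, hi⟩ := Function.ne_iff.1 hv
        refine Finset.sum_pos' (fun i _ => mul_self_nonneg _) ⟨i, Finset.mem_univ i, ?_⟩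
        exact mul_self_pos.2 hi
      exact lt_of_lt_of_le h5 (Finset.single_le_sum (fun g _ => h4 g) (Finset.mem_univ (1 : Γ)))
    exact_mod_cast h3
  have hFsub : ∀ v v' x, F (v - v') x = F v x - F v' x := by
    intro v v' x
    simp only [F, Matrix.mulVec_sub, Pi.sub_apply]
    rw [← Finset.sum_sub_distrib]
    refine Finset.sum_congr rfl fun i _ => ?_
    push_cast
    ring
  -- the domain
  obtain ⟨N1, t, ht1, ht2⟩ := real_cone_fin (q := N0) (Sum.elim
    (fun (b : Fin N0) => (Pi.single b 1 : Fin N0 → ℤ))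
    (fun (g : Γ) (b : Fin N0) => ∑ i, h b i * B.mulVec (w - (M g).mulVec w) i))
  have htb : ∀ c b, 0 ≤ t c b := by
    intro c b
    have h1 := ht1 c (Sum.inl b)
    rw [Sum.elim_inl] at h1
    rw [Finset.sum_eq_single b] at h1
    · simpa using h1
    · intro b' _ hb'
      rw [Pi.single_eq_of_ne hb', zero_mul]
    · intro h
      exact absurd (Finset.mem_univ _) h
  have hsumF : ∀ (s : Fin N0 → ℝ) v, F v (fun i => ∑ b, s b * h b i) =
      ∑ b, s b * ((∑ i, h b i * B.mulVec v i : ℤ) : ℝ) := by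
    intro s v
    simp only [F, Finset.sum_mul]
    rw [Finset.sum_comm]
    refine Finset.sum_congr rfl fun b _ => ?_
    push_cast
    rw [Finset.mul_sum]
    exact Finset.sum_congr rfl fun i _ => by ring
  have hdom : ∀ x, Cn (fun c i => ∑ b, t c b * h b i) x ↔
      (Cn h x ∧ ∀ g : Γ, 0 ≤ F (w - (M g).mulVec w) x) := by
    intro x
    constructor
    · rintro ⟨s, hs, hx⟩
      have hx' : ∀ i, x i = ∑ b, (∑ c, s c * t c b) * (h b i : ℝ) := by
        intro i
        rw [hx]
        have h1 : ∀ c, s c * (((∑ b, t c b * h b i : ℤ)) : ℝ) =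
            ∑ b, s c * (t c b : ℝ) * (h b i : ℝ) := by
          intro c
          push_cast
          rw [Finset.mul_sum]
          exact Finset.sum_congr rfl fun b _ => by ring
        rw [Finset.sum_congr rfl fun c _ => h1 c, Finset.sum_comm]
        exact Finset.sum_congr rfl fun b _ => (Finset.sum_mul _ _ _).symm
      refine ⟨⟨fun b => ∑ c, s c * t c b, fun b => Finset.sum_nonneg fun c _ =>
        mul_nonneg (hs c) (by exact_mod_cast htb c b), hx'⟩, fun g => ?_⟩
      have h1 : x = fun i => ∑ b, (∑ c, s c * t c b) * (h b i : ℝ) := funext hx'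
      rw [h1, hsumF]
      have h2 : ∑ b, (∑ c, s c * (t c b : ℝ)) * ((∑ i, h b i * B.mulVec (w - (M g).mulVec w) i : ℤ) : ℝ) =
          ∑ c, s c * ((∑ b, (∑ i, h b i * B.mulVec (w - (M g).mulVec w) i) * t c b : ℤ) : ℝ) := by
        have h3 : ∀ b, (∑ c, s c * (t c b : ℝ)) *
            ((∑ i, h b i * B.mulVec (w - (M g).mulVec w) i : ℤ) : ℝ) =
            ∑ c, s c * (((∑ i, h b i * B.mulVec (w - (M g).mulVec w) i : ℤ) : ℝ) * t c b) := by
          intro b
          rw [Finset.sum_mul]
          exact Finset.sum_congr rfl fun c _ => by ring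
        rw [Finset.sum_congr rfl fun b _ => h3 b, Finset.sum_comm]
        refine Finset.sum_congr rfl fun c _ => ?_
        rw [← Finset.mul_sum]
        congr 1
        rw [Int.cast_sum]
        exact Finset.sum_congr rfl fun b _ => by rw [Int.cast_mul]
      rw [h2]
      refine Finset.sum_nonneg fun c _ => mul_nonneg (hs c) ?_
      have h3 := ht1 c (Sum.inr g)
      rw [Sum.elim_inr] at h3
      exact_mod_cast h3
    · rintro ⟨⟨s, hs, hx⟩, hF⟩
      obtain ⟨a, ha, has⟩ := ht2 s (by
        rintro (b | g)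
        · rw [Sum.elim_inl]
          rw [Finset.sum_eq_single b]
          · rw [Pi.single_eq_same, Int.cast_one, one_mul]
            exact hs b
          · intro b' _ hb'
            rw [Pi.single_eq_of_ne hb', Int.cast_zero, zero_mul]
          · intro h
            exact absurd (Finset.mem_univ _) h
        · rw [Sum.elim_inr]
          have h1 := hF g
          have h2 : x = fun i => ∑ b, s b * (h b i : ℝ) := funext hx
          rw [h2, hsumF] at h1
          refine h1.trans (le_of_eq ?_)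
          exact Finset.sum_congr rfl fun b _ => mul_comm _ _)
      refine ⟨a, ha, fun i => ?_⟩
      rw [hx]
      have h1 : ∀ c, a c * (((∑ b, t c b * h b i : ℤ)) : ℝ) =
          ∑ b, a c * (t c b : ℝ) * (h b i : ℝ) := by
        intro c
        push_cast
        rw [Finset.mul_sum]
        exact Finset.sum_congr rfl fun b _ => by ring
      rw [Finset.sum_congr rfl fun c _ => h1 c, Finset.sum_comm]
      refine Finset.sum_congr rfl fun b _ => ?_
      rw [← Finset.sum_mul, ← has]
  have hMinv : ∀ g : Γ, ∀ x, act (M g⁻¹) (act (M g) x) = x := by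
    intro g x
    rw [← act_mul]
    have h1 : M g⁻¹ * M g = 1 := by
      have h2 : M (g⁻¹ * g) = M g⁻¹ * M g := rfl
      rw [← h2, inv_mul_cancel]
      rfl
    rw [h1, act_one]
  have hMinv' : ∀ g : Γ, ∀ x, act (M g) (act (M g⁻¹) x) = x := by
    intro g x
    have h1 := hMinv g⁻¹ x
    rwa [inv_inv] at h1
  have hmv : ∀ (g g' : Γ) v, (M g).mulVec ((M g').mulVec v) = (M (g * g')).mulVec v := by
    intro g g' v
    rw [Matrix.mulVec_mulVec]
    rfl
  refine ⟨N1, t, htb, fun x => ⟨fun hx => ?_, ?_⟩, fun g hg hg1 => ?_⟩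
  · -- the translates cover
    obtain ⟨g, -, hg⟩ := Finset.exists_max_image (Finset.univ : Finset Γ)
      (fun g => F ((M g).mulVec w) x) ⟨1, Finset.mem_univ _⟩
    refine ⟨g.1, g.2, act (M g⁻¹) x, (hdom _).2 ⟨hΓ _ (g⁻¹).2 x hx, fun g' => ?_⟩,
      (hMinv' g x).symm⟩
    rw [hFsub]
    have h1 : F w (act (M g⁻¹) x) = F ((M g).mulVec w) x := by
      rw [← hFinv g, hMinv']
    have h2 : F ((M g').mulVec w) (act (M g⁻¹) x) = F ((M (g * g')).mulVec w) x := by
      rw [← hFinv g, hMinv', hmv]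
    rw [h1, h2]
    have h3 := hg (g * g') (Finset.mem_univ _)
    linarith
  · rintro ⟨g, hg, y, hy, rfl⟩
    exact hΓ g hg y ((hdom y).1 hy).1
  · -- the interiors are disjoint
    rw [Set.disjoint_left]
    rintro x hx ⟨y, hy, rfl⟩
    obtain ⟨v, hv⟩ : ∃ v : Fin p → ℤ, v = w - (M ⟨g, hg⟩).mulVec w := ⟨_, rfl⟩
    have hv0 : v ≠ 0 := by
      rw [hv]
      intro h0
      exact hw g hg hg1 (sub_eq_zero.1 h0).symm
    have hpos := hFpos v hv0
    -- the value at the interior point is positive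
    have h1 : 0 < F v (act g.1 y) := by
      obtain ⟨ε, hε, hball⟩ := Metric.isOpen_iff.1 isOpen_interior _ hx
      obtain ⟨η, hη, hηε⟩ : ∃ η : ℝ, 0 < η ∧ ‖(-η) • fun i => (v i : ℝ)‖ < ε := by
        refine ⟨ε / (‖fun i => (v i : ℝ)‖ + 1), by positivity, ?_⟩
        have hn : 0 ≤ ‖fun i => (v i : ℝ)‖ := norm_nonneg _
        rw [norm_smul, norm_neg, Real.norm_of_nonneg (by positivity), div_mul_eq_mul_div,
          div_lt_iff₀ (by positivity)]
        nlinarith
      have h2 : act g.1 y + (-η) • (fun i => (v i : ℝ)) ∈ Metric.ball (act g.1 y) ε := by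
        rw [Metric.mem_ball, dist_eq_norm, add_sub_cancel_left]
        exact hηε
      have h2' : Cn (fun c i => ∑ b, t c b * h b i) (act g.1 y + (-η) • (fun i => (v i : ℝ))) :=
        (interior_subset (hball h2) : _ ∈ {x | Cn (fun c i => ∑ b, t c b * h b i) x})
      have h3 := ((hdom _).1 h2').2 ⟨g, hg⟩
      rw [← hv, hFadd, hFsmul] at h3
      have h4 : 0 < η * F v fun i => (v i : ℝ) := mul_pos hη hpos
      linarith
    have h2 := ((hdom y).1 hy).2 ⟨g, hg⟩⁻¹
    rw [hFsub] at h2
    have h3 : F w y = F ((M ⟨g, hg⟩).mulVec w) (act g.1 y) := (hFinv ⟨g, hg⟩ w y).symm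
    have h4 : F ((M ⟨g, hg⟩⁻¹).mulVec w) y = F w (act g.1 y) := by
      have h5 := hFinv ⟨g, hg⟩ ((M ⟨g, hg⟩⁻¹).mulVec w) y
      rw [hmv, mul_inv_cancel] at h5
      have h6 : (M 1).mulVec w = w := Matrix.one_mulVec w
      rw [h6] at h5
      exact h5.symm
    rw [h3, h4] at h2
    rw [hv, hFsub] at h1
    linarith

end Pool.Agent.Q57.FD
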