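import Pool.Agent.Q57.GM.Gor

/-!
The irreducible elements of the monoid of the lattice points of a pointed cone, and the groups which
preserve the cone.
-/

set_option autoImplicit false
set_option linter.unusedSectionVars false

open Pool.Agent.Q57.GM

namespace Pool.Agent.Q57.FD

variable {V ι : Type} [AddCommGroup V] [Fintype ι] [DecidableEq ι]

/-- the irreducible elements of the monoid -/
def Irr (L : V →+ (ι → ℤ)) (γ : V) : Prop :=
  γ ≠ 0 ∧ (∀ s, 0 ≤ L γ s) ∧ ∀ a b, (∀ s, 0 ≤ L a s) → (∀ s, 0 ≤ L b s) → γ = a + b →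
    a = 0 ∨ b = 0

theorem irr_finite {L : V →+ (ι → ℤ)} (hL : Function.Injective L) : {γ | Irr L γ}.Finite := by
  classical
  obtain ⟨G, hG1, hG2⟩ := gordan L hL
  refine G.finite_toSet.subset fun γ hγ => ?_
  have key : ∀ x ∈ AddSubmonoid.closure (G : Set V), (∀ s, 0 ≤ L x s) ∧ (x = 0 ∨ x ∈ G ∨
      ∃ a b, a ≠ 0 ∧ b ≠ 0 ∧ (∀ s, 0 ≤ L a s) ∧ (∀ s, 0 ≤ L b s) ∧ x = a + b) := by
    intro x hx
    induction hx using AddSubmonoid.closure_induction with
    | mem g hg => exact ⟨(hG1 g hg).2, Or.inr (Or.inl hg)⟩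
    | zero => exact ⟨fun s => by rw [map_zero]; exact le_rfl, Or.inl rfl⟩
    | add x y _ _ hx hy =>
      refine ⟨fun s => by rw [map_add]; exact add_nonneg (hx.1 s) (hy.1 s), ?_⟩
      by_cases hx0 : x = 0
      · rw [hx0, zero_add]
        exact hy.2
      by_cases hy0 : y = 0
      · rw [hy0, add_zero]
        exact hx.2
      exact Or.inr (Or.inr ⟨x, y, hx0, hy0, hx.1, hy.1, rfl⟩)
  rcases (key γ (hG2 γ hγ.2.1)).2 with h | h | ⟨a, b, ha, hb, h1, h2, h3⟩
  · exact absurd h hγ.1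
  · exact h
  · rcases hγ.2.2 a b h1 h2 h3 with h4 | h4
    · exact absurd h4 ha
    · exact absurd h4 hb

theorem closure_irr {L : V →+ (ι → ℤ)} (hL : Function.Injective L) {γ : V}
    (hγ : ∀ s, 0 ≤ L γ s) : γ ∈ AddSubmonoid.closure {γ | Irr L γ} := by
  classical
  have hpos : ∀ γ : V, γ ≠ 0 → (∀ s, 0 ≤ L γ s) → 0 < ∑ s, L γ s := by
    intro γ h0 h
    refine lt_of_le_of_ne (Finset.sum_nonneg fun s _ => h s) fun h1 => h0 ?_
    have h2 := (Finset.sum_eq_zero_iff_of_nonneg fun s _ => h s).1 h1.symm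
    exact hL (by
      rw [map_zero]
      funext s
      exact h2 s (Finset.mem_univ s))
  have key : ∀ (n : ℕ) (γ : V), (∀ s, 0 ≤ L γ s) → ∑ s, L γ s < n →
      γ ∈ AddSubmonoid.closure {γ | Irr L γ} := by
    intro n
    induction n with
    | zero =>
      intro γ h hn
      have h1 : 0 ≤ ∑ s, L γ s := Finset.sum_nonneg fun s _ => h s
      push_cast at hn
      linarith
    | succ n ih =>
      intro γ h hn
      by_cases h0 : γ = 0
      · rw [h0]
        exact AddSubmonoid.zero_mem _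
      by_cases hI : Irr L γ
      · exact AddSubmonoid.subset_closure hI
      · have h1 : ∃ a b, (∀ s, 0 ≤ L a s) ∧ (∀ s, 0 ≤ L b s) ∧ γ = a + b ∧ a ≠ 0 ∧ b ≠ 0 := by
          by_contra hcon
          refine hI ⟨h0, h, fun a b ha hb hab => ?_⟩
          by_contra h2
          rw [not_or] at h2
          exact hcon ⟨a, b, ha, hb, hab, h2.1, h2.2⟩
        obtain ⟨a, b, ha, hb, hab, ha0, hb0⟩ := h1
        have h2 : ∑ s, L γ s = ∑ s, L a s + ∑ s, L b s := by
          rw [hab, map_add, ← Finset.sum_add_distrib]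
          rfl
        have h3 := hpos a ha0 ha
        have h4 := hpos b hb0 hb
        push_cast at hn
        rw [hab]
        exact AddSubmonoid.add_mem _ (ih a ha (by omega)) (ih b hb (by omega))
  obtain ⟨n, hn⟩ : ∃ n : ℕ, ∑ s, L γ s < n := ⟨(∑ s, L γ s).toNat + 1, by
    have := Int.self_le_toNat (∑ s, L γ s)
    push_cast
    omega⟩
  exact key n γ hγ hn

/-- **A group which preserves a cone is finite.** -/
theorem finite_group {G : Type} [Group G] {L : V →+ (ι → ℤ)} (hL : Function.Injective L)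
    (ρ : G →* AddMonoid.End V) (hρ : Function.Injective ρ)
    (hG : ∀ g γ, (∀ s, 0 ≤ L γ s) → ∀ s, 0 ≤ L (ρ g γ) s) {m0 : V} (hm0 : ∀ s, 0 ≤ L m0 s)
    (hspan : ∀ v, ∃ k : ℕ, ∀ s, 0 ≤ L (k • m0 + v) s) : Finite G := by
  classical
  have hfin := irr_finite hL
  have : Finite {γ | Irr L γ} := hfin
  have hinv : ∀ g (v : V), ρ g⁻¹ (ρ g v) = v := by
    intro g v
    have h1 : (ρ g⁻¹ * ρ g) v = v := by
      rw [← map_mul, inv_mul_cancel, map_one]
      rfl
    exact h1
  have hinv' : ∀ g (v : V), ρ g (ρ g⁻¹ v) = v := by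
    intro g v
    have h1 : (ρ g * ρ g⁻¹) v = v := by
      rw [← map_mul, mul_inv_cancel, map_one]
      rfl
    exact h1
  have hirr : ∀ g γ, Irr L γ → Irr L (ρ g γ) := by
    intro g γ h
    refine ⟨fun h0 => h.1 ?_, hG g γ h.2.1, fun a b ha hb hab => ?_⟩
    · rw [← hinv g γ, h0, map_zero]
    · have h1 : γ = ρ g⁻¹ a + ρ g⁻¹ b := by
        rw [← map_add, ← hab, hinv]
      rcases h.2.2 _ _ (hG g⁻¹ a ha) (hG g⁻¹ b hb) h1 with h2 | h2
      · left
        rw [← hinv' g a, h2, map_zero]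
      · right
        rw [← hinv' g b, h2, map_zero]
  let f : G → ({γ | Irr L γ} → {γ | Irr L γ}) := fun g γ => ⟨ρ g γ.1, hirr g γ.1 γ.2⟩
  refine Finite.of_injective f fun g g' h => hρ ?_
  have h1 : ∀ γ, Irr L γ → ρ g γ = ρ g' γ := by
    intro γ hγ
    have h2 := congrFun h ⟨γ, hγ⟩
    exact congrArg Subtype.val h2
  have h2 : ∀ γ, (∀ s, 0 ≤ L γ s) → ρ g γ = ρ g' γ := by
    intro γ hγ
    have h3 := closure_irr hL hγ
    induction h3 using AddSubmonoid.closure_induction with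
    | mem x hx => exact h1 x hx
    | zero => rw [map_zero, map_zero]
    | add x y hx' hy' hx hy =>
      have h4 : ∀ z ∈ AddSubmonoid.closure {γ | Irr L γ}, ∀ s, 0 ≤ L z s := by
        intro z hz
        induction hz using AddSubmonoid.closure_induction with
        | mem x hx => exact hx.2.1
        | zero => intro s; rw [map_zero]; exact le_rfl
        | add x y _ _ hx hy => intro s; rw [map_add]; exact add_nonneg (hx s) (hy s)
      rw [map_add, map_add, hx (h4 x hx'), hy (h4 y hy')]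
  refine AddMonoidHom.ext fun v => ?_
  obtain ⟨k, hk⟩ := hspan v
  have h3 := h2 _ hk
  rw [map_add, map_add, map_nsmul, map_nsmul, h2 m0 hm0] at h3
  exact add_left_cancel h3

end Pool.Agent.Q57.FD
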