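import Pool.Agent.Q57.FD.Dom
import Pool.Agent.Q57.MV.Top

/-!
Fundamental domains on the cones of toroidal divisors.
-/

set_option autoImplicit false
set_option linter.overlappingInstances false
set_option linter.unusedSectionVars false
set_option maxHeartbeats 1000000

open FF MvPolynomial Pool.Agent.W603.LV Pool.Agent.W602.GT Pool.Agent.W602.Cov
open Pool.Agent.TH756.PR Pool.Agent.TH122.AB Pool.Agent.TH756.PN
open Pool.Agent.Y169.CH Pool.Agent.Q57.TP Pool.Agent.Q57.TQ Pool.Agent.Q57.GM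
open Pool.Agent.Q57.GH Pool.Agent.Q57.FG Pool.Agent.Q57.FH Pool.Agent.Q57.GE Pool.Agent.Q57.FT
open Pool.Agent.Q57.TC Pool.Agent.Q57.MV

namespace Pool.Agent.Q57.FD

section gen

variable {p N0 : ℕ} {K : Type} [Field K] [Algebra ℂ K]

/-- sums of divisors without base points -/
theorem bpo_comb {Op : Place ℂ K → Prop} {N : ℕ} {δ : Fin p → Place ℂ K → ℚ}
    {h : Fin N0 → Fin p → ℤ} (hb : ∀ b, Bpo Op N δ (h b)) {t : Fin N0 → ℤ} (ht : ∀ b, 0 ≤ t b) :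
    Bpo Op N δ (fun i => ∑ b, t b * h b i) := by
  classical
  intro P hP hPO
  choose f hf0 hf hfP using fun b => hb b P hP hPO
  obtain ⟨e, he⟩ : ∃ e : Fin N0 → ℕ, ∀ b, (e b : ℤ) = t b :=
    ⟨fun b => (t b).toNat, fun b => Int.toNat_of_nonneg (ht b)⟩
  have hsum : (∑ b, e b • h b) = fun i => ∑ b, t b * h b i := by
    funext i
    rw [Finset.sum_apply]
    refine Finset.sum_congr rfl fun b _ => ?_
    rw [Pi.smul_apply, nsmul_eq_mul, he]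
  refine ⟨∏ b, f b ^ e b, Finset.prod_ne_zero_iff.2 fun b _ => pow_ne_zero _ (hf0 b), ?_, ?_⟩
  · have h1 := zsec_prod hf e
    rwa [hsum] at h1
  · rw [ord_prod' P Finset.univ _ fun b _ => pow_ne_zero _ (hf0 b)]
    simp only [P.ord_pow]
    push_cast
    have h1 : ∀ b, (e b : ℚ) * P.ord (f b) ≤ (e b : ℚ) * (- ∑ i, (h b i : ℚ) * δ i P) := fun b =>
      mul_le_mul_of_nonneg_left (hfP b) (by positivity)
    refine (Finset.sum_le_sum fun b _ => h1 b).trans (le_of_eq ?_)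
    have h2 : ∀ i, (∑ b, (t b : ℚ) * (h b i : ℚ)) * δ i P =
        ∑ b, (e b : ℚ) * ((h b i : ℚ) * δ i P) := by
      intro i
      rw [Finset.sum_mul]
      refine Finset.sum_congr rfl fun b _ => ?_
      have h3 : (e b : ℚ) = t b := by exact_mod_cast he b
      rw [h3]
      ring
    rw [Finset.sum_congr rfl fun i _ => h2 i, Finset.sum_comm, ← Finset.sum_neg_distrib]
    refine Finset.sum_congr rfl fun b _ => ?_
    rw [mul_neg, Finset.mul_sum]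

/-- a divisor without base points has sections -/
theorem sec_of_bpo {Op : Place ℂ K → Prop} {N : ℕ} {δ : Fin p → Place ℂ K → ℚ}
    (hOp : ∃ P, Divisorial N P ∧ Op P) {μ : Fin p → ℤ} (h : Bpo Op N δ μ) :
    ∃ f : K, f ≠ 0 ∧ ZSec N δ μ f := by
  obtain ⟨P, hP, hPO⟩ := hOp
  obtain ⟨f, hf0, hf, -⟩ := h P hP hPO
  exact ⟨f, hf0, hf⟩

end gen

section adm

variable {r R : ℕ}

theorem exists_adm (hr : 1 ≤ r) {m : Fin R → ℕ} (hm : ∀ j, 0 < m j) (a : Fin R → Fin r → ℕ) :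
    ∃ w, Adm m a w := by
  classical
  refine ⟨fun _ => ∏ j, m j, fun h => ?_, fun j => ?_⟩
  · have h1 := congrFun h ⟨0, hr⟩
    simp only [Pi.zero_apply] at h1
    exact (Finset.prod_ne_zero_iff.2 fun j _ => (hm j).ne') h1
  · exact Finset.dvd_sum fun i _ => Dvd.dvd.mul_left (Finset.dvd_prod_of_mem _
      (Finset.mem_univ j)) _

end adm

variable {r N R p : ℕ} {n : Fin r → ℕ} {K : Type} [Field K] [Algebra ℂ K]

/-- there are prime divisors over each stratum -/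
theorem exists_over (hr : 1 ≤ r) (hn : ∀ i, 1 ≤ n i) (hN : N = ∑ i, n i)
    {F : ∀ i, MvPolynomial (Fin (n i + 1)) ℂ} {d : Fin r → ℕ} (hd : ∀ i, 1 ≤ d i)
    (hh : ∀ i, (F i).IsHomogeneous (d i)) (hs : ∀ i, SmF (F i))
    {x : ∀ i, Fin (n i + 1) → K} (hx0 : ∀ i, x i 0 ≠ 0)
    (hbas : IsTranscendenceBasis ℂ (aff x)) {m : Fin R → ℕ} (hm : ∀ j, 0 < m j)
    {a : Fin R → Fin r → ℕ} (hdiv : ∀ j i, m j ∣ a j i * d i) {z : Fin R → K}
    (hz : ∀ j, z j ^ m j = ∏ i, (aeval (x i) (F i) / x i 0 ^ d i) ^ a j i)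
    (hgen : IntermediateField.adjoin ℂ (Set.range (aff x) ∪ Set.range z) = ⊤)
    {w : Fin r → ℕ} (hw : Adm m a w) :
    ∃ (P : Place ℂ K) (k : ℕ), 1 ≤ k ∧ Divisorial N P ∧ w = k • mulQ F d x P := by
  obtain ⟨N', e, Φ, C, x', F', rfl, hΦ, rfl, rfl, H, hvv, htor, hco⟩ :=
    setupM (N := N) hr hn hN hd hh hs hx0 hbas hm hdiv hz hgen
  obtain ⟨P, v', r', hP, hPv, -, hr', hwr, -⟩ := exists_toroidal H hΦ hvv hw
  refine ⟨P, r', hr', hP, ?_⟩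
  rw [← hvv P v' hPv]
  exact hwr

/-- **Fundamental domains on the nef cone.** -/
theorem main_nefdom (hr : 1 ≤ r) (hn : ∀ i, 1 ≤ n i) (hN : N = ∑ i, n i)
    {F : ∀ i, MvPolynomial (Fin (n i + 1)) ℂ} {d : Fin r → ℕ} (hd : ∀ i, 1 ≤ d i)
    (hh : ∀ i, (F i).IsHomogeneous (d i)) (hs : ∀ i, SmF (F i))
    {x : ∀ i, Fin (n i + 1) → K} (hx0 : ∀ i, x i 0 ≠ 0)
    (hbas : IsTranscendenceBasis ℂ (aff x)) {m : Fin R → ℕ} (hm : ∀ j, 0 < m j)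
    {a : Fin R → Fin r → ℕ} (hdiv : ∀ j i, m j ∣ a j i * d i) {z : Fin R → K}
    (hz : ∀ j, z j ^ m j = ∏ i, (aeval (x i) (F i) / x i 0 ^ d i) ^ a j i)
    (hgen : IntermediateField.adjoin ℂ (Set.range (aff x) ∪ Set.range z) = ⊤)
    {S : Finset (Finset (Fin r → ℕ))} (hS : Fan m a S) {c : Fin p → (Fin r → ℕ) → ℚ}
    (hc0 : ∀ i, c i 0 = 0) {u : Finset (Fin r → ℕ) → Fin p → Fin r → ℚ} (hu : LinC m a S c u)
    {β : Fin p → Fin r → ℤ} {δ : Fin p → Place ℂ K → ℚ}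
    (hδ : ∀ i P, δ i P = c i (mulQ F d x P) - ∑ t, (β i t : ℚ) * minO (x t) P)
    (hpt : ∀ lam, NefZ N δ lam → NefZ N δ (-lam) → lam = 0)
    (hint : (interior {lam | NefZ N δ lam}).Nonempty) (Γ : Subgroup (GL (Fin p) ℤ))
    (hΓ : ∀ g ∈ Γ, ∀ lam, NefZ N δ lam → NefZ N δ (act g.1 lam)) :
    Finite Γ ∧ ∃ (N1 : ℕ) (k : Fin N1 → Fin p → ℤ), (∀ b, Bpf N δ (k b)) ∧
      (∀ lam, NefZ N δ lam ↔ ∃ g ∈ Γ, ∃ y, Cn k y ∧ lam = act g.1 y) ∧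
      ∀ g ∈ Γ, g ≠ 1 → Disjoint (interior {lam | Cn k lam}) (act g.1 '' {lam | Cn k lam}) := by
  obtain ⟨N0, h, h1, h2⟩ := main_nefcone (N := N) hr hn hN hd hh hs hx0 hbas hm hdiv hz hgen hS
    hc0 hu hδ
  have h3 : ∀ lam, NefZ N δ lam ↔ Cn h lam := fun lam => (h2 lam).2
  have h4 : {lam | NefZ N δ lam} = {lam | Cn h lam} := Set.ext h3
  rw [h4] at hint
  have hΓ' : ∀ g ∈ Γ, ∀ x, Cn h x → Cn h (act g.1 x) := fun g hg lam hl =>
    (h3 _).1 (hΓ g hg lam ((h3 _).2 hl))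
  have hfin : Finite Γ := finite_of (fun lam hl hl' => hpt lam ((h3 _).2 hl) ((h3 _).2 hl'))
    hint Γ hΓ'
  obtain ⟨N1, t, ht, h5, h6⟩ := exists_dom Γ hΓ'
  refine ⟨hfin, N1, fun c i => ∑ b, t c b * h b i, fun c P hP => ?_, fun lam =>
    (h3 lam).trans (h5 lam), h6⟩
  exact bpo_comb (Op := fun _ => True) (fun b P hP _ => h1 b P hP) (ht c) P hP trivial

/-- **Fundamental domains on the cones of the divisors which are nef on an open toroidal subset.** -/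
theorem main_movdom (hr : 1 ≤ r) (hn : ∀ i, 1 ≤ n i) (hN : N = ∑ i, n i)
    {F : ∀ i, MvPolynomial (Fin (n i + 1)) ℂ} {d : Fin r → ℕ} (hd : ∀ i, 1 ≤ d i)
    (hh : ∀ i, (F i).IsHomogeneous (d i)) (hs : ∀ i, SmF (F i))
    {x : ∀ i, Fin (n i + 1) → K} (hx0 : ∀ i, x i 0 ≠ 0)
    (hbas : IsTranscendenceBasis ℂ (aff x)) {m : Fin R → ℕ} (hm : ∀ j, 0 < m j)
    {a : Fin R → Fin r → ℕ} (hdiv : ∀ j i, m j ∣ a j i * d i) {z : Fin R → K}
    (hz : ∀ j, z j ^ m j = ∏ i, (aeval (x i) (F i) / x i 0 ^ d i) ^ a j i)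
    (hgen : IntermediateField.adjoin ℂ (Set.range (aff x) ∪ Set.range z) = ⊤)
    {S : Finset (Finset (Fin r → ℕ))} (hS : Fan m a S) {c : Fin p → (Fin r → ℕ) → ℚ}
    (hc0 : ∀ i, c i 0 = 0) {u : Finset (Fin r → ℕ) → Fin p → Fin r → ℚ} (hu : LinC m a S c u)
    {β : Fin p → Fin r → ℤ} {δ : Fin p → Place ℂ K → ℚ}
    (hδ : ∀ i P, δ i P = c i (mulQ F d x P) - ∑ t, (β i t : ℚ) * minO (x t) P)
    {T : Finset (Finset (Fin r → ℕ))} (hT : ∀ τ ∈ T, τ.Nonempty ∧ ∃ σ ∈ S, τ ⊆ σ)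
    (hpt : ∀ lam, NefZo (OpD F d x T) N δ lam → NefZo (OpD F d x T) N δ (-lam) → lam = 0)
    (hint : (interior {lam | NefZo (OpD F d x T) N δ lam}).Nonempty)
    (Γ : Subgroup (GL (Fin p) ℤ))
    (hΓ : ∀ g ∈ Γ, ∀ lam, NefZo (OpD F d x T) N δ lam → NefZo (OpD F d x T) N δ (act g.1 lam)) :
    Finite Γ ∧ ∃ (N1 : ℕ) (k : Fin N1 → Fin p → ℤ),
      (∀ b, Bpo (OpT T (mulQ F d x)) N δ (k b)) ∧
      (∀ lam, NefZo (OpD F d x T) N δ lam ↔ ∃ g ∈ Γ, ∃ y, Cn k y ∧ lam = act g.1 y) ∧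
      ∀ g ∈ Γ, g ≠ 1 → Disjoint (interior {lam | Cn k lam}) (act g.1 '' {lam | Cn k lam}) := by
  obtain ⟨N0, h, h1, h2⟩ := main_mov (N := N) hr hn hN hd hh hs hx0 hbas hm hdiv hz hgen hS
    hc0 hu hδ hT
  have h3 : ∀ lam, NefZo (OpD F d x T) N δ lam ↔ Cn h lam := fun lam => (h2 lam).2.2
  have h4 : {lam | NefZo (OpD F d x T) N δ lam} = {lam | Cn h lam} := Set.ext h3
  rw [h4] at hint
  have hΓ' : ∀ g ∈ Γ, ∀ x, Cn h x → Cn h (act g.1 x) := fun g hg lam hl =>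
    (h3 _).1 (hΓ g hg lam ((h3 _).2 hl))
  have hfin : Finite Γ := finite_of (fun lam hl hl' => hpt lam ((h3 _).2 hl) ((h3 _).2 hl'))
    hint Γ hΓ'
  obtain ⟨N1, t, ht, h5, h6⟩ := exists_dom Γ hΓ'
  exact ⟨hfin, N1, fun c i => ∑ b, t c b * h b i, fun c => bpo_comb h1 (ht c), fun lam =>
    (h3 lam).trans (h5 lam), h6⟩

end Pool.Agent.Q57.FD
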